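import Mathlib

set_option autoImplicit false

/-!
# MP_7279d0_gt: the number of orbits of `C_k(ω*, ω*)` is `2 ^ 𝔠`

For a point `z` of a space `Z` let `rel z` be the set of ultrafilters `p` on `ℕ` such that there
are points `d n` with open neighbourhoods `O n`, such that `z` is the `p`-limit of the points
`d n`, and `z` is not in the closure of the union of the sets `O n`, `n ∈ A`, when `A ∉ p`. This
is a topological invariant of the point. If `Z` has a base of size at most `𝔠`, then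
`#(rel z) ≤ 𝔠`. For `Z = C_k(ω*, ω*)` each ultrafilter `p` on `ℕ` is in `rel f` for some constant
map `f`. As there are `2 ^ 𝔠` ultrafilters on `ℕ`, there are `2 ^ 𝔠` orbits.
-/

namespace Pool.Agent.Results.MP_7279d0_gt.OrbitCount

open Set Filter Topology TopologicalSpace Cardinal

universe u

/-- `ω*`: the space of the nonprincipal ultrafilters on `ℕ`, as a subspace of the space `βω` of
all ultrafilters on `ℕ`. -/
abbrev OmegaStar : Type := {u : Ultrafilter ℕ // ∀ n : ℕ, u ≠ pure n}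

/-- Two points are in the same orbit if some homeomorphism of the space onto itself maps one to
the other. -/
def orbitSetoid (Z : Type u) [TopologicalSpace Z] : Setoid Z where
  r y z := ∃ h : Z ≃ₜ Z, h y = z
  iseqv :=
    { refl := fun y => ⟨Homeomorph.refl Z, rfl⟩
      symm := by
        rintro y z ⟨h, rfl⟩
        exact ⟨h.symm, h.symm_apply_apply y⟩
      trans := by
        rintro x y z ⟨h, rfl⟩ ⟨k, rfl⟩
        exact ⟨h.trans k, rfl⟩ }

/-- The type of the orbits of a space. -/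
abbrev Orbits (Z : Type u) [TopologicalSpace Z] : Type u := Quotient (orbitSetoid Z)

/-! ### The invariant -/

section invariant

variable {Z : Type} [TopologicalSpace Z]

/-- The relative types of a point. -/
def rel (z : Z) : Set (Ultrafilter ℕ) :=
  {p | ∃ (d : ℕ → Z) (O : ℕ → Set Z), (∀ n, IsOpen (O n) ∧ d n ∈ O n) ∧
    Tendsto d p (𝓝 z) ∧ ∀ A : Set ℕ, A ∉ p → z ∉ closure (⋃ n ∈ A, O n)}

theorem rel_subset (h : Z ≃ₜ Z) (z : Z) : rel z ⊆ rel (h z) := by
  rintro p ⟨d, O, hO, hd, hA⟩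
  refine ⟨fun n => h (d n), fun n => h '' O n, fun n => ⟨h.isOpenMap _ (hO n).1,
    mem_image_of_mem h (hO n).2⟩, (h.continuous.tendsto z).comp hd, fun A hAp hz => ?_⟩
  refine hA A hAp ?_
  have h1 : (⋃ n ∈ A, h '' O n) = h '' (⋃ n ∈ A, O n) := by
    simp only [image_iUnion]
  rw [h1, ← h.image_closure] at hz
  obtain ⟨w, hw, hwz⟩ := hz
  rwa [← h.injective hwz]

theorem rel_eq {y z : Z} (h : (orbitSetoid Z).r y z) : rel y = rel z := by
  obtain ⟨k, rfl⟩ := h
  refine (rel_subset k y).antisymm ?_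
  have := rel_subset k.symm (k y)
  rwa [k.symm_apply_apply] at this

/-- In a space with a base of size at most `𝔠` each point has at most `𝔠` relative types. -/
theorem card_rel {B : Set (Set Z)} (hB : IsTopologicalBasis B) (hc : #B ≤ 𝔠) (z : Z) :
    #(rel z) ≤ 𝔠 := by
  have key : ∀ p : rel z, ∃ O : ℕ → B, ∀ A : Set ℕ,
      A ∈ p.1 ↔ z ∈ closure (⋃ n ∈ A, (O n : Set Z)) := by
    rintro ⟨p, d, O, hO, hd, hA⟩
    have h1 : ∀ n, ∃ V : B, d n ∈ (V : Set Z) ∧ (V : Set Z) ⊆ O n := by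
      intro n
      obtain ⟨V, hV, hdV, hVO⟩ := hB.exists_subset_of_mem_open (hO n).2 (hO n).1
      exact ⟨⟨V, hV⟩, hdV, hVO⟩
    choose V hdV hVO using h1
    refine ⟨V, fun A => ⟨fun hAp => ?_, fun hz => ?_⟩⟩
    · refine mem_closure_of_tendsto hd ?_
      filter_upwards [hAp] with n hn
      exact mem_biUnion hn (hdV n)
    · by_contra hAp
      exact hA A hAp (closure_mono (biUnion_mono subset_rfl fun n _ => hVO n) hz)
  choose F hF using key
  have hinj : Function.Injective F := by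
    intro p q hpq
    apply Subtype.ext
    apply Ultrafilter.coe_injective
    ext A
    exact (hF p A).trans ((by rw [hpq]) : _ ↔ _) |>.trans (hF q A).symm
  calc #(rel z) ≤ #(ℕ → B) := Cardinal.mk_le_of_injective hinj
    _ = #B ^ #ℕ := by simp
    _ ≤ 𝔠 ^ #ℕ := Cardinal.power_le_power_right hc
    _ = 𝔠 := by rw [Cardinal.mk_nat, Cardinal.continuum_power_aleph0]

end invariant

/-! ### Bases of size at most `𝔠` -/

theorem mk_finite_subsets_le {α : Type} (S : Set α) (hS : #S ≤ 𝔠) :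
    #{t : Set α | t.Finite ∧ t ⊆ S} ≤ 𝔠 := by
  have h1 : #(List S) ≤ 𝔠 :=
    (Cardinal.mk_list_le_max S).trans (max_le Cardinal.aleph0_le_continuum hS)
  refine le_trans ?_ h1
  refine Cardinal.mk_le_of_surjective
    (f := fun l : List S => (⟨{x | ∃ y ∈ l, (y : α) = x}, ?_, ?_⟩ :
      {t : Set α | t.Finite ∧ t ⊆ S})) ?_
  · have h2 : {x | ∃ y ∈ l, (y : α) = x} = Subtype.val '' {y : S | y ∈ l} := by
      ext x
      simp
    rw [h2]
    exact (List.finite_toSet l).image _
  · rintro x ⟨y, -, rfl⟩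
    exact y.2
  · rintro ⟨t, htf, htS⟩
    obtain ⟨l, hl⟩ := (htf.preimage (f := (Subtype.val : S → α))
      Subtype.val_injective.injOn).exists_finset_coe
    refine ⟨l.toList, ?_⟩
    apply Subtype.ext
    ext x
    simp only [Finset.mem_toList, mem_ofPred_eq]
    constructor
    · rintro ⟨y, hy, rfl⟩
      have : y ∈ (Subtype.val : S → α) ⁻¹' t := by
        rw [← hl]
        exact hy
      exact this
    · intro hx
      refine ⟨⟨x, htS hx⟩, ?_, rfl⟩
      have : (⟨x, htS hx⟩ : S) ∈ (l : Set S) := by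
        rw [hl]
        exact hx
      exact this

theorem exists_basis {Z : Type} [t : TopologicalSpace Z] {S : Set (Set Z)}
    (hS : t = generateFrom S) (hc : #S ≤ 𝔠) : ∃ B : Set (Set Z), IsTopologicalBasis B ∧ #B ≤ 𝔠 :=
  ⟨_, isTopologicalBasis_of_subbasis hS,
    Cardinal.mk_image_le.trans (mk_finite_subsets_le S hc)⟩

/-! ### The space `ω*` -/

/-- The basic clopen subset of `ω*` given by a subset of `ℕ`. -/
def star (S : Set ℕ) : Set OmegaStar := {u | S ∈ u.1}

theorem isOpen_star (S : Set ℕ) : IsOpen (star S) :=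
  (ultrafilter_isOpen_basic S).preimage continuous_subtype_val

theorem isClosed_star (S : Set ℕ) : IsClosed (star S) :=
  (ultrafilter_isClosed_basic S).preimage continuous_subtype_val

theorem isClosed_range : IsClosed {u : Ultrafilter ℕ | ∀ n : ℕ, u ≠ pure n} := by
  have h1 : {u : Ultrafilter ℕ | ∀ n : ℕ, u ≠ pure n} = ⋂ n : ℕ, {u | {n} ∈ u}ᶜ := by
    ext u
    simp only [mem_ofPred_eq, mem_iInter, mem_compl_iff]
    refine forall_congr' fun n => not_congr ?_
    constructor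
    · rintro rfl
      exact Ultrafilter.mem_pure.2 rfl
    · intro h
      exact (Ultrafilter.eq_pure_of_finite_mem (finite_singleton n) h).elim
        fun m hm => by
          obtain ⟨h2, h3⟩ := hm
          rw [h3, mem_singleton_iff.1 h2]
  rw [h1]
  exact isClosed_iInter fun n => (ultrafilter_isOpen_basic {n}).isClosed_compl

instance : CompactSpace OmegaStar :=
  isCompact_iff_compactSpace.1 isClosed_range.isCompact

theorem basis_star : IsTopologicalBasis (range star) := by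
  have h := (ultrafilterBasis_is_basis (α := ℕ)).isInducing
    (f := (Subtype.val : OmegaStar → Ultrafilter ℕ)) IsInducing.subtypeVal
  convert h using 1
  ext U
  constructor
  · rintro ⟨S, rfl⟩
    exact ⟨_, ⟨S, rfl⟩, rfl⟩
  · rintro ⟨_, ⟨S, rfl⟩, rfl⟩
    exact ⟨S, rfl⟩

theorem mk_range_star : #(range star) ≤ 𝔠 := by
  refine Cardinal.mk_range_le.trans ?_
  simp

theorem compactOpen_gen : (ContinuousMap.compactOpen : TopologicalSpace C(OmegaStar, OmegaStar)) =
    generateFrom (Set.image2 (fun K t => {f : C(OmegaStar, OmegaStar) | MapsTo f K (⋃₀ t)})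
      (range star) {t : Set (Set OmegaStar) | t.Finite ∧ t ⊆ range star}) := by
  refine ContinuousMap.compactOpen_eq_generateFrom ?_ basis_star ?_
  · rintro _ ⟨S, rfl⟩
    exact (isClosed_star S).isCompact
  · intro f x V hV hx
    have h1 : f ⁻¹' V ∈ 𝓝 x := (basis_star.isOpen hV).preimage f.continuous |>.mem_nhds hx
    obtain ⟨K, hK, hxK, hKV⟩ := basis_star.mem_nhds_iff.1 h1
    exact ⟨K, hK, (basis_star.isOpen hK).mem_nhds hxK, hKV⟩

theorem exists_basis_C :
    ∃ B : Set (Set C(OmegaStar, OmegaStar)), IsTopologicalBasis B ∧ #B ≤ 𝔠 := by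
  refine exists_basis compactOpen_gen ?_
  refine (Cardinal.mk_image2_le (f := fun K t => {f : C(OmegaStar, OmegaStar) |
    MapsTo f K (⋃₀ t)})).trans ?_
  calc #(range star) * #{t : Set (Set OmegaStar) | t.Finite ∧ t ⊆ range star}
      ≤ 𝔠 * 𝔠 := mul_le_mul' mk_range_star (mk_finite_subsets_le _ mk_range_star)
    _ = 𝔠 := Cardinal.continuum_mul_self

/-! ### The relative types of constant maps -/

/-- A partition of `ℕ` into infinite sets. -/
def piece (n : ℕ) : Set ℕ := {m | (Nat.unpair m).1 = n}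

/-- A nonprincipal ultrafilter containing `piece n`. -/
noncomputable def pt (n : ℕ) : OmegaStar :=
  ⟨(hyperfilter ℕ).map (fun k => Nat.pair n k), by
    intro m hm
    have h1 : {m} ∈ (hyperfilter ℕ).map (fun k => Nat.pair n k) := by
      rw [hm]
      exact Ultrafilter.mem_pure.2 rfl
    rw [Ultrafilter.mem_map] at h1
    have h2 : ((fun k => Nat.pair n k) ⁻¹' {m}).Finite :=
      (finite_singleton m).preimage (fun a _ b _ h => (Nat.pair_eq_pair.1 h).2)
    exact notMem_hyperfilter_of_finite h2 h1⟩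

theorem pt_mem {n : ℕ} {S : Set ℕ} (h : piece n ⊆ S) : pt n ∈ star S := by
  show S ∈ (hyperfilter ℕ).map (fun k => Nat.pair n k)
  rw [Ultrafilter.mem_map]
  refine Filter.mem_of_superset Filter.univ_mem fun k _ => h ?_
  simp [piece]

theorem exists_rel (p : Ultrafilter ℕ) :
    ∃ x : OmegaStar, p ∈ rel (ContinuousMap.const OmegaStar x) := by
  obtain ⟨x, -, hx⟩ := isCompact_univ.ultrafilter_le_nhds (p.map pt) (by simp)
  have hx' : Tendsto pt p (𝓝 x) := hx
  refine ⟨x, fun n => ContinuousMap.const OmegaStar (pt n),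
    fun n => {f | MapsTo f univ (star (piece n))}, fun n => ⟨?_, ?_⟩, ?_, ?_⟩
  · exact ContinuousMap.isOpen_setOfPred_mapsTo isCompact_univ (isOpen_star _)
  · intro t _
    exact pt_mem subset_rfl
  · exact (ContinuousMap.continuous_const'.tendsto x).comp hx'
  · intro A hA hcl
    have hxU : x ∈ star {m | (Nat.unpair m).1 ∉ A} := by
      refine (isClosed_star _).mem_of_tendsto hx' ?_
      have hA' : Aᶜ ∈ p := Ultrafilter.compl_mem_iff_notMem.2 hA
      filter_upwards [hA'] with n hn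
      refine pt_mem ?_
      rintro m rfl
      exact hn
    rw [mem_closure_iff] at hcl
    obtain ⟨f, hf1, hf2⟩ := hcl {f | MapsTo f univ (star {m | (Nat.unpair m).1 ∉ A})}
      (ContinuousMap.isOpen_setOfPred_mapsTo isCompact_univ (isOpen_star _)) (fun t _ => hxU)
    obtain ⟨n, hn, hfn⟩ := mem_iUnion₂.1 hf2
    have h1 : {m | (Nat.unpair m).1 ∉ A} ∈ (f x).1 := hf1 (mem_univ x)
    have h2 : piece n ∈ (f x).1 := hfn (mem_univ x)
    obtain ⟨m, hm1, hm2⟩ := Ultrafilter.nonempty_of_mem (Filter.inter_mem h1 h2)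
    refine hm1 ?_
    rw [show (Nat.unpair m).1 = n from hm2]
    exact hn

/-! ### There are `2 ^ 𝔠` ultrafilters on `ℕ` -/

open Classical in
theorem two_power_le : (2 : Cardinal.{0}) ^ (𝔠 : Cardinal.{0}) ≤ #(Ultrafilter ℕ) := by
  obtain ⟨e⟩ : Nonempty (ℕ ≃ Finset ℕ × Finset (Finset ℕ)) :=
    ⟨(Denumerable.eqv (Finset ℕ × Finset (Finset ℕ))).symm⟩
  let A : Set ℕ → Set ℕ := fun X => {m | (e m).1.filter (· ∈ X) ∈ (e m).2}
  let g : Set (Set ℕ) → Set ℕ → Set ℕ := fun 𝒮 X => if X ∈ 𝒮 then A X else (A X)ᶜ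
  have key : ∀ 𝒮 : Set (Set ℕ), ∃ u : Ultrafilter ℕ, range (g 𝒮) ⊆ (u : Filter ℕ).sets := by
    intro 𝒮
    refine Ultrafilter.exists_ultrafilter_of_finite_inter_nonempty _ fun T hT => ?_
    have h1 : ∀ t : T, ∃ X, g 𝒮 X = t.1 := fun t => hT t.2
    choose X hX using h1
    let F : Finset (Set ℕ) := Finset.univ.image X
    have hsep : ∀ P : Set ℕ × Set ℕ, ∃ k : ℕ, P.1 ≠ P.2 → ¬ (k ∈ P.1 ↔ k ∈ P.2) := by
      rintro ⟨Y, W⟩
      by_cases h : Y = W
      · exact ⟨0, fun h' => absurd h h'⟩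
      · obtain ⟨k, hk⟩ := not_forall.1 (mt Set.ext h)
        exact ⟨k, fun _ => hk⟩
    choose κ hκ using hsep
    let s : Finset ℕ := (F ×ˢ F).image κ
    let G : Finset (Finset ℕ) := (F.filter (· ∈ 𝒮)).image fun Y => s.filter (· ∈ Y)
    refine ⟨e.symm (s, G), ?_⟩
    rintro t ht
    have hXF : X ⟨t, ht⟩ ∈ F := Finset.mem_image_of_mem _ (Finset.mem_univ _)
    have ht' := hX ⟨t, ht⟩
    rw [← show g 𝒮 (X ⟨t, ht⟩) = t from ht']
    set Y := X ⟨t, ht⟩ with hY
    by_cases hYS : Y ∈ 𝒮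
    · have h2 : g 𝒮 Y = A Y := if_pos hYS
      rw [h2]
      show (e (e.symm (s, G))).1.filter (· ∈ Y) ∈ (e (e.symm (s, G))).2
      rw [e.apply_symm_apply]
      exact Finset.mem_image.2 ⟨Y, Finset.mem_filter.2 ⟨hXF, hYS⟩, rfl⟩
    · have h2 : g 𝒮 Y = (A Y)ᶜ := if_neg hYS
      rw [h2]
      show ¬ (e (e.symm (s, G))).1.filter (· ∈ Y) ∈ (e (e.symm (s, G))).2
      rw [e.apply_symm_apply]
      intro h3
      obtain ⟨W, hW, hWY⟩ := Finset.mem_image.1 h3
      obtain ⟨hWF, hWS⟩ := Finset.mem_filter.1 hW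
      have hne : W ≠ Y := fun h => hYS (h ▸ hWS)
      have hks : κ (W, Y) ∈ s := Finset.mem_image_of_mem _ (Finset.mem_product.2 ⟨hWF, hXF⟩)
      refine hκ (W, Y) hne ?_
      have h4 : κ (W, Y) ∈ s.filter (· ∈ W) ↔ κ (W, Y) ∈ s.filter (· ∈ Y) := by rw [hWY]
      simpa [hks] using h4
  choose u hu using key
  have hinj : Function.Injective u := by
    intro 𝒮 𝒯 h
    ext X
    have h1 := hu 𝒮 ⟨X, rfl⟩
    have h2 := hu 𝒯 ⟨X, rfl⟩
    rw [← h] at h2
    by_cases hS : X ∈ 𝒮 <;> by_cases hT : X ∈ 𝒯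
    · exact iff_of_true hS hT
    · exfalso
      rw [show g 𝒮 X = A X from if_pos hS] at h1
      rw [show g 𝒯 X = (A X)ᶜ from if_neg hT] at h2
      exact (Ultrafilter.compl_mem_iff_notMem.1 h2) h1
    · exfalso
      rw [show g 𝒮 X = (A X)ᶜ from if_neg hS] at h1
      rw [show g 𝒯 X = A X from if_pos hT] at h2
      exact (Ultrafilter.compl_mem_iff_notMem.1 h1) h2
    · exact iff_of_false hS hT
  have h3 := Cardinal.mk_le_of_injective hinj
  simpa using h3

/-! ### The number of orbits -/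

theorem mk_le_of_basis {Z : Type} [TopologicalSpace Z] [T2Space Z] {B : Set (Set Z)}
    (hB : IsTopologicalBasis B) (hc : #B ≤ 𝔠) : #Z ≤ 2 ^ (𝔠 : Cardinal.{0}) := by
  have hinj : Function.Injective (fun z : Z => {V : B | z ∈ (V : Set Z)}) := by
    intro y z h
    by_contra hne
    obtain ⟨U, V, hU, -, hyU, hzV, hUV⟩ := t2_separation hne
    obtain ⟨W, hW, hyW, hWU⟩ := hB.exists_subset_of_mem_open hyU hU
    have h1 : (⟨W, hW⟩ : B) ∈ {V : B | y ∈ (V : Set Z)} := hyW
    have h1' : (⟨W, hW⟩ : B) ∈ {V : B | z ∈ (V : Set Z)} := by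
      have h2 : {V : B | y ∈ (V : Set Z)} = {V : B | z ∈ (V : Set Z)} := h
      rw [← h2]
      exact h1
    exact (Set.disjoint_left.1 hUV) (hWU h1') hzV
  calc #Z ≤ #(Set B) := Cardinal.mk_le_of_injective hinj
    _ = 2 ^ #B := by simp
    _ ≤ 2 ^ 𝔠 := Cardinal.power_le_power_left two_ne_zero hc

/-- The orbit of a constant map. -/
def constOrbit (x : OmegaStar) : Orbits C(OmegaStar, OmegaStar) :=
  Quotient.mk (orbitSetoid C(OmegaStar, OmegaStar)) (ContinuousMap.const OmegaStar x)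

theorem le_constOrbits : (2 : Cardinal.{0}) ^ (𝔠 : Cardinal.{0}) ≤ #(range constOrbit) := by
  obtain ⟨B, hB, hc⟩ := exists_basis_C
  by_contra hlt
  rw [not_le] at hlt
  let R : Orbits C(OmegaStar, OmegaStar) → Set (Ultrafilter ℕ) :=
    Quotient.lift rel (fun y z h => rel_eq h)
  have hR : ∀ o, #(R o) ≤ 𝔠 := by
    intro o
    induction o using Quotient.inductionOn with
    | h f => exact card_rel hB hc f
  have h1 : #(Ultrafilter ℕ) ≤ #(Σ o : range constOrbit, R o.1) := by
    refine Cardinal.mk_le_of_surjective (f := fun q => q.2.1) fun p => ?_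
    obtain ⟨x, hx⟩ := exists_rel p
    exact ⟨⟨⟨constOrbit x, x, rfl⟩, ⟨p, hx⟩⟩, rfl⟩
  have h2 : #(Σ o : range constOrbit, R o.1) ≤ #(range constOrbit) * 𝔠 := by
    rw [Cardinal.mk_sigma]
    refine (Cardinal.sum_le_sum (fun o : range constOrbit => #(R o.1)) (fun _ => 𝔠)
      fun o => hR o.1).trans ?_
    simp
  have h3 : #(range constOrbit) * 𝔠 < 2 ^ (𝔠 : Cardinal.{0}) :=
    Cardinal.mul_lt_of_lt (Cardinal.aleph0_le_continuum.trans (Cardinal.cantor _).le) hlt
      (Cardinal.cantor _)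
  exact absurd (two_power_le.trans (h1.trans h2)) (not_le.2 h3)

/-- The space `C_k(ω*, ω*)` has exactly `2 ^ 𝔠` orbits, and there are exactly `2 ^ 𝔠` orbits that
contain a constant map. -/
theorem result : #(Orbits C(OmegaStar, OmegaStar)) = 2 ^ (𝔠 : Cardinal.{0}) ∧
    #(range fun x : OmegaStar => (Quotient.mk (orbitSetoid C(OmegaStar, OmegaStar))
      (ContinuousMap.const OmegaStar x))) = 2 ^ (𝔠 : Cardinal.{0}) := by
  obtain ⟨B, hB, hc⟩ := exists_basis_C
  have h1 : #(Orbits C(OmegaStar, OmegaStar)) ≤ 2 ^ (𝔠 : Cardinal.{0}) :=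
    Cardinal.mk_quotient_le.trans (mk_le_of_basis hB hc)
  have h2 := Cardinal.mk_set_le (range constOrbit)
  exact ⟨h1.antisymm (le_constOrbits.trans h2), (h2.trans h1).antisymm le_constOrbits⟩

end Pool.Agent.Results.MP_7279d0_gt.OrbitCount
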